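import Pool.Agent.P8H37.FA.Stm

/-!
# Package FD of project FA: finite extensions
-/

set_option autoImplicit false

namespace Pool.Agent.P8H69.FA

open Pool.Agent.P8H37.FA

theorem swf_mono {G : Type} [Group G] {Ψ Ψ' F : Set G} {ε : ℝ} {E : Set G} (h : Ψ ⊆ Ψ')
    (H : SWf G Ψ' F ε E) : SWf G Ψ F ε E := by
  obtain ⟨Ω, i1, i2, Y, a, h1, h2⟩ := H
  exact ⟨Ω, i1, i2, Y, a, fun g hg s hs hgs => h1 g (h hg) s hs (h hgs),
    fun g hg k hk w w' hw => h2 g (h hg) k (h hk) w w' hw⟩

theorem sex_mono {G : Type} [Group G] {Ψ Ψ' : Set G} (h : Ψ ⊆ Ψ') (H : SEx G Ψ') : SEx G Ψ := by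
  intro F hF ε hε
  obtain ⟨E, hE, hW⟩ := H F hF ε hε
  exact ⟨E, hE, swf_mono h hW⟩

theorem gls_mono {R : Type} [Ring R] (n : ℕ) {B B' : Set R} (h : B ⊆ B') : GLS n B ⊆ GLS n B' :=
  fun _ hg i j => ⟨h (hg i j).1, h (hg i j).2⟩

/-- the structure constants, the coordinates of `1` and of the elements of `C` -/
noncomputable def cst {K E : Type} [Field K] [Field E] [Algebra K E] {M : ℕ}
    (b : Module.Basis (Fin M) K E) (C : Finset E) : Finset K := by
  classical exact
    (Finset.univ.image fun t : Fin M × Fin M × Fin M => b.repr (b t.1 * b t.2.1) t.2.2) ∪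
    (Finset.univ.image fun k : Fin M => b.repr 1 k) ∪
    (C ×ˢ (Finset.univ : Finset (Fin M))).image fun t => b.repr t.1 t.2

theorem cst_mul {K E : Type} [Field K] [Field E] [Algebra K E] {M : ℕ}
    (b : Module.Basis (Fin M) K E) (C : Finset E) (i j k : Fin M) :
    b.repr (b i * b j) k ∈ Subring.closure (cst b C : Set K) := by
  classical
  apply Subring.subset_closure
  unfold cst
  simp only [Finset.coe_union, Set.mem_union, Finset.mem_coe, Finset.mem_image]
  exact Or.inl (Or.inl ⟨(i, j, k), Finset.mem_univ _, rfl⟩)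

theorem cst_one {K E : Type} [Field K] [Field E] [Algebra K E] {M : ℕ}
    (b : Module.Basis (Fin M) K E) (C : Finset E) (k : Fin M) :
    b.repr 1 k ∈ Subring.closure (cst b C : Set K) := by
  classical
  apply Subring.subset_closure
  unfold cst
  simp only [Finset.coe_union, Set.mem_union, Finset.mem_coe, Finset.mem_image]
  exact Or.inl (Or.inr ⟨k, Finset.mem_univ _, rfl⟩)

theorem cst_mem {K E : Type} [Field K] [Field E] [Algebra K E] {M : ℕ}
    (b : Module.Basis (Fin M) K E) (C : Finset E) (c : E) (hc : c ∈ C) (k : Fin M) :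
    b.repr c k ∈ Subring.closure (cst b C : Set K) := by
  classical
  apply Subring.subset_closure
  unfold cst
  simp only [Finset.coe_union, Set.mem_union, Finset.mem_coe, Finset.mem_image, Finset.mem_product]
  exact Or.inr ⟨(c, k), ⟨hc, Finset.mem_univ _⟩, rfl⟩

theorem coord_mem {K E : Type} [Field K] [Field E] [Algebra K E] {M : ℕ}
    (b : Module.Basis (Fin M) K E) (C : Finset E) (x : E) (hx : x ∈ Subring.closure (C : Set E)) :
    ∀ k, b.repr x k ∈ Subring.closure (cst b C : Set K) := by
  induction hx using Subring.closure_induction with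
  | mem x hx => exact fun k => cst_mem b C x hx k
  | zero => intro k; simp
  | one => exact fun k => cst_one b C k
  | add x y _ _ hx hy => intro k; rw [map_add, Finsupp.add_apply]; exact Subring.add_mem _ (hx k) (hy k)
  | neg x _ hx => intro k; rw [map_neg, Finsupp.neg_apply]; exact Subring.neg_mem _ (hx k)
  | mul x y _ _ hx hy =>
    intro k
    have h1 : x * y = ∑ i, ∑ j, (b.repr x i * b.repr y j) • (b i * b j) := by
      conv_lhs => rw [← b.sum_repr x, ← b.sum_repr y]
      rw [Finset.sum_mul_sum]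
      refine Finset.sum_congr rfl fun i _ => Finset.sum_congr rfl fun j _ => ?_
      rw [smul_mul_smul_comm]
    rw [h1, map_sum, Finsupp.finsetSum_apply]
    refine Subring.sum_mem _ fun i _ => ?_
    rw [map_sum, Finsupp.finsetSum_apply]
    refine Subring.sum_mem _ fun j _ => ?_
    rw [map_smul, Finsupp.smul_apply, smul_eq_mul]
    exact Subring.mul_mem _ (Subring.mul_mem _ (hx i) (hy j)) (cst_mul b C i j k)

theorem t_FD : S_FD := by
  intro K _ E _ _ hfin hK R _ _ n N e C
  letI : Algebra K R := Algebra.compHom R (algebraMap K E)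
  set M := Module.finrank K E with hM
  let b : Module.Basis (Fin M) K E := Module.finBasis K E
  let e' : Fin (M * N) → R := fun t => b (finProdFinEquiv.symm t).1 • e (finProdFinEquiv.symm t).2
  refine sex_mono (gls_mono n ?_) (hK R n (M * N) e' (cst b C))
  rintro x ⟨c, hc, rfl⟩
  refine ⟨fun t => b.repr (c (finProdFinEquiv.symm t).2) (finProdFinEquiv.symm t).1,
    fun t => coord_mem b C _ (hc _) _, ?_⟩
  have hsm : ∀ (k : K) (r : R), k • r = (algebraMap K E k) • r := fun k r => rfl
  rw [← Equiv.sum_comp finProdFinEquiv, Fintype.sum_prod_type, Finset.sum_comm]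
  refine Finset.sum_congr rfl fun i _ => ?_
  simp only [Equiv.symm_apply_apply, e']
  conv_lhs => rw [← b.sum_repr (c i), Finset.sum_smul]
  refine Finset.sum_congr rfl fun l _ => ?_
  rw [hsm, Algebra.smul_def (b.repr (c i) l) (b l), mul_smul]

end Pool.Agent.P8H69.FA
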